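import Pool.Agent.Y101.Aq.GMain

/-!
# The generalized Bloch conjecture and the powers of the canonical classes
-/

open CategoryTheory AlgebraicGeometry

universe u v w w'

namespace Pool.Agent.Results.MP_13bc1c_ag.CanonicalPowers

open Pool.Agent.H914 Pool.Agent.H914.VarClass Pool.Agent.H914.VarClass.Obj Pool.Agent.W492.BB
  Pool.Agent.TH133 Pool.Agent.Y101.Aq

/-- The following are equivalent:
* the generalized Bloch conjecture: if `X` has Hodge coniveau `≥ c` then `A_i^{hom}(X) = 0` for `i < c`;
* the same for the powers of divisors on rational varieties `X`;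
* the same for the powers of the canonical classes of rational varieties: if `X` is rational, of
  Hodge coniveau `≥ c`, and `i < c`, and `K_X^(dim X - i)` is homologically trivial then it is zero in
  `CH_i(X)_ℚ`.

Moreover, for each variety `X` and `c < dim X` we have `A_i^{hom}(X) = 0` for all `i < c` if and only if
for all vector bundles `E` of positive rank on `X` with `c_1(E) = -K_X` and all `i < c`, if the class
`K_{P(E)}^(dim P(E) - i)` is homologically trivial then it is zero. -/
theorem result {k : Type u} [Field k] {𝒱 : VarClass k} {C : TheoryData.{u, v, 0} 𝒱 ℚ}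
    [IsChowProj C] {K : Type w'} [Field K] {H : WeilTheoryData.{u, v, w'} C K} [IsWeilProj H]
    {D : BundleData.{u, v, w} C} {can : ∀ X : 𝒱.Obj, C.A X} {R : 𝒱.Obj → Prop}
    {hodge : 𝒱.Obj → ℕ → ℕ → ℕ} (hD : IsBundleTheory D) (hcan : IsCanonical D can)
    (hh : BundleHodge D hodge) (hR : IsRationalHodge D R hodge) :
    List.TFAE [
      ∀ (c : ℕ) (X : 𝒱.Obj), HodgeConiveau hodge c X → LowCyclesZero H c X,
      ∀ (c : ℕ) (X : 𝒱.Obj), R X → HodgeConiveau hodge c X → LowPowersZero H D c X,
      ∀ (c : ℕ) (X : 𝒱.Obj), R X → HodgeConiveau hodge c X → LowCanonicalZero H can c X] ∧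
    ∀ (c : ℕ) (X : 𝒱.Obj), c < X.dim → (LowCyclesZero H c X ↔
      ∀ E : D.B X, 1 ≤ D.rk E → can X + D.c E 1 = 0 → LowCanonicalZero H can c (D.P E)) :=
  ⟨low_global hD hcan hh hR, fun _ _ hc => low_local hD hcan hc⟩

end Pool.Agent.Results.MP_13bc1c_ag.CanonicalPowers
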