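import Pool.Agent.Y107.SJ.Bridge

/-!
# The generalized Bloch conjecture for hypersurfaces given by sums of forms

Let `F = f_0(x_0) + ... + f_r(x_r)` be a sum of forms of degree `d` in disjoint sets of variables,
`m_s` variables for `f_s`, `m_s ≥ d ≥ 3`, and let `V = {F = 0}` or `V = {F = z^d}` be smooth of
dimension `n`. Then `A_i(V) = ℚ` (the multiples of `h^(n-i)`) for `i < r` if `V = {F = 0}`, and for
`i ≤ r` if `V = {F = z^d}`, or if `V = {F = 0}` and one of the `f_s` has more than `d` variables. If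
`r + 1 = ⌊(n + 2) / d⌋` this is the range `i < ⌈(n + 2) / d⌉ - 1` given by the Hodge coniveau of
the smooth hypersurfaces of degree `d`; in particular the generalized Bloch conjecture holds for all
the Fermat hypersurfaces.

The Chow groups enter through their formal properties (`IsChowProj`), the hypersurfaces through the
diagrams of Shioda and Katsura: for forms `f(x)` and `g(y)` the rational map
`((x : z), (y : w)) ↦ (w x : z y)` from `{f = z^d} × {-g = w^d}` to `{f + g = 0}` is resolved by the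
blow-up of `{f = 0} × {g = 0}`. The facts about this diagram used are listed in `Diagram.IsBlowUp`,
`Diagram.IsPolarized` and `Diagram.IsEquivariant`. The only input on cycles is that the Fano
hypersurfaces `{f_s = z^d}` and `{f_s = z^d + w^d}` have coniveau at least one, that is, `CH_0 = ℚ`
(Bloch-Srinivas).

The proof: the primitive part of the motive of `V` is a direct factor of
`h(X₁)_prim ⊗ h(X₂)_prim ⊕ h(Y₁)_prim ⊗ h(Y₂)_prim (1)`, so that the Chow coniveaus of the pieces add up.
-/

set_option autoImplicit false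

open CategoryTheory AlgebraicGeometry

universe u v

namespace Pool.Agent.Results.MP_13bc1c_ag.JoinHypersurfaces

open Pool.Agent.H914 Pool.Agent.H914.VarClass Pool.Agent.W492.BB Pool.Agent.TH133
  Pool.Agent.Y107.SJ

/-- (1) The one step theorem: the coniveau of `V = {f + g = 0}`. (2) Let `A` be the sum of the
`α s`, `s ≤ r`, in a tower (`A = r + 1` if all `f_s` have at least `d` variables). Then the Chow
groups `A_i` of `X r = {F_r = z^d}` are spanned by the power of `h` for `i < A`, those of
`Y r = {F_r = 0}` for `i < A - 1`, and for `i < A` if one of the `y s = {f_s = 0}`, `s ≤ r`, has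
coniveau at least `α s` (for `α s = 1`: if `f_s` has more than `d` variables). -/
theorem result {k : Type u} [Field k] {𝒱 : VarClass k} (C : TheoryData.{u, v, 0} 𝒱 ℚ)
    [IsChowProj C] :
    (∀ (V X₁ X₂ Y₁ Y₂ : Pol C), ShiodaKatsura V X₁ X₂ Y₁ Y₂ → ∀ a₁ a₂ b₁ b₂ c : ℕ,
      HasConiveau X₁ a₁ → HasConiveau X₂ a₂ → HasConiveau Y₁ b₁ → HasConiveau Y₂ b₂ →
      c ≤ a₁ + a₂ → c ≤ b₁ + b₂ + 1 → HasConiveau V c ∧ BlochUpTo c V) ∧
    ∀ (α : ℕ → ℕ) (Y X y x x' : ℕ → Pol C), IsTower α Y X y x x' → ∀ r : ℕ,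
      BlochUpTo (∑ s ∈ Finset.range (r + 1), α s) (X r) ∧
      BlochUpTo (∑ s ∈ Finset.range (r + 1), α s - 1) (Y r) ∧
      ((∃ s ≤ r, HasConiveau (y s) (α s)) →
        BlochUpTo (∑ s ∈ Finset.range (r + 1), α s) (Y r)) := by
  refine ⟨fun V X₁ X₂ Y₁ Y₂ h a₁ a₂ b₁ b₂ c h1 h2 h3 h4 h5 h6 => ?_,
    fun α Y X y x x' h r => ⟨?_, ?_, fun hs => ?_⟩⟩
  · have h7 := coniveau_step h h1 h2 h3 h4 h5 h6
    exact ⟨h7, blochUpTo h7⟩
  · exact blochUpTo (tower h r).1
  · exact blochUpTo (tower h r).2
  · obtain ⟨s, hs, hy⟩ := hs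
    exact blochUpTo (tower' h r s hs hy)

end Pool.Agent.Results.MP_13bc1c_ag.JoinHypersurfaces
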