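import Pool.Agent.Y148.OD.Facts
import Pool.Agent.Y148.OD.TransN

/-!
# One large orbit makes the zero-cycles on a variety finite-dimensional

`X` is an irreducible projective variety of dimension `N ≥ 1` over the complex numbers (it need not be
non-singular), `γ : Xⁿ → B(X)` maps `(x_1, …, x_n)` to the class of the zero-cycle
`[x_1] + … + [x_n]` modulo rational equivalence, and `d_n = N n - min {dim F : F a fibre of γ}`.
The following are equivalent:

1. `B(X)` is finite-dimensional: the integers `d_n` are bounded;
2. `d_n < 2n` for one `n`;
3. for one `n` there is one fibre of `γ` of dimension greater than `(N - 1) n`.

So if `B(X)` is infinite-dimensional, then `d_n ≥ 2n` for all `n`, and all the fibres of `γ` have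
dimension at most `(N - 1) n`.  For a non-singular variety with a non-zero holomorphic `i`-form,
`i ≥ 2`, this is known (Mumford, Roitman), by the use of the form; here it is proved without forms.

If `X` is non-singular and has Hodge coniveau at least one (no holomorphic forms of positive degree),
the generalized Bloch conjecture predicts that all zero-cycles of degree `0` on `X` are
(rationally) trivial, and this is equivalent to the finite-dimensionality of `B(X)` (Roitman).  So
the conjecture for `X` is equivalent to the existence of one algebraic family, of dimension
`(N - 1) n + 1`, of rationally equivalent effective zero-cycles of degree `n`, for one `n`.

## The definitions

A closed subset of projective space is given by homogeneous polynomials (`IsClosedSet`).  The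
dimension of a countable union of closed sets of families of points is measured by the number of
algebraically independent ratios of homogeneous coordinates over arbitrary countable fields
(`DimGE`, `dim`).  Two effective zero-cycles of degree `n` are joined (`Joined`) if they are the
values at `0` and `∞` of a morphism from the projective line to the symmetric product `Sⁿ(X)`, which
is described by Chow forms; the group `B X` is the free abelian group on `X` modulo the differences
of joined zero-cycles.

## The proof

All the statements on rational equivalence used are proved in the imported files.  The main steps:

* having the same class in `B(X)` is stable under specialisation (places, the Newton polygon of a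
  family of Chow forms);
* the dimension of the orbits is semicontinuous: special orbits are at least as large as the generic
  ones (generic linear forms through a point are algebraically independent);
* if generic zero-cycles on a subvariety `D` of `X` move within `D`, then all zero-cycles on `D` are,
  up to a zero-cycle of bounded degree, equivalent to zero-cycles on a hyperplane section of
  `D`; on curves they always move (resultants and Galois descent).  So either the zero-cycles on `X`
  are equivalent to zero-cycles of bounded transcendence degree, or there is a terminal subvariety
  `E` of `X`, of dimension `e ≥ 2`, on which generic zero-cycles do not move;
* in the second case the generic orbits have dimension at most `(N - e) n`, and a count of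
  transcendence degrees (as for matroids) gives the bound `(N - 1) n` for all orbits.
-/

set_option autoImplicit false

namespace Pool.Agent.Results.MP_13bc1c_ag.LargeOrbits

open Pool.Agent.Y148.OD

/-- **One large orbit.** For an irreducible projective variety `X` of dimension `N ≥ 1` over the
complex numbers the following are equivalent: the integers `d_n` are bounded (`B(X)` is
finite-dimensional); `d_n < 2n` for one `n`; for one `n` one fibre of `γ` has dimension greater than
`(N - 1) n`. -/
theorem result {r N : ℕ} (hN : 1 ≤ N) {X : Set (Pt r)} (hX : IsVariety X N) :
    List.TFAE
      [∃ c : ℕ, ∀ n : ℕ, dn X N n ≤ c,
       ∃ n : ℕ, dn X N n < 2 * n,
       ∃ (n : ℕ) (x : Fin n → X), (N - 1) * n < dim (fibre X x)] :=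
  variety_tfae stmComp stmCurve stmStab hN hX

end Pool.Agent.Results.MP_13bc1c_ag.LargeOrbits
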