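import Pool.Agent.Y107.VC.QuotSP
import Pool.Agent.Y107.VC.Fano

/-!
# The generalized Bloch conjecture (c = 1) for quotients of products of curves by signed permutations

Let `C_t` be finitely many curves over an algebraically closed field `k` of characteristic zero, let
`ι_t` be an automorphism of `C_t`, let `X = ∏_(c ∈ κ) C_(q c)` be a product of copies of these curves,
of any dimension, and let `G` be any group of automorphisms of `X` generated by signed permutations:
permutations of equal factors, composed with involutions `ι` of some of the factors, these being
the hyperelliptic (or elliptic, or rational) curves. If there are no `G`-invariant holomorphic forms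
on `X` of positive degree, then `CH_0(X/G) = ℚ`. A smooth projective model `Y` of `X/G` has
`CH_0(Y) = CH_0(X/G)` and `H^0(Y, Ω^i) = H^0(X, Ω^i)^G`, so this is the generalized Bloch conjecture
(`c = 1`) for `Y`.

Example: `C^7/G` for a curve `C` of genus at most three with a morphism of degree two to the line, where
`G` is the extension of the group `GL_3(F_2)` of order 168 by the Hamming code (the
group of order 16 generated by the sign changes on the seven lines of the Fano plane). The group
acts freely in codimension one and the quotient has canonical singularities (every element has
age at least one), so that for `g = 2` and hyperelliptic `C` with `g = 3` this is a sevenfold of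
general type.

The proof: a zero-cycle whose push forwards to the products with fewer than `i` factors vanish is
moved one step further by every combination of signed permutations acting as zero on the
holomorphic `i`-forms; this rests on the theorem of Riemann (symmetric primitive zero-cycles on
`C^(g+1)` vanish) and on the second fundamental theorem of invariant theory for the symmetric groups.
-/

set_option autoImplicit false

namespace Pool.Agent.Results.MP_13bc1c_ag.SignedPermutationQuotients

open Pool.Agent.Y107.VC FF

/-- If no holomorphic form of positive degree on `X = ∏ C_(q c)` is invariant under the group generated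
by the set `Γ` of signed permutations, then every `Γ`-invariant zero-cycle class of degree zero on
`X` vanishes. The signed permutations coming from the Fano plane have no invariant forms on `C^7` if
`C` has genus at most three. -/
theorem result (k : Type) [Field k] [CharZero k] [IsAlgClosed k] (T : Type) [Fintype T]
    (K : T → Type) [∀ t, Field (K t)] [∀ t, Algebra k (K t)] [∀ t, IsFF k (K t)]
    (ι : ∀ t, K t ≃ₐ[k] K t) :
    (∀ (κ : Type) [Fintype κ] (q : κ → T) (Γ : Set (SP κ)), (∀ h ∈ Γ, Good ι q h) →
      NoForms (fun t => genus k (K t)) q Γ → TrivialCH0 ι q Γ) ∧
    ∀ t, IsHyp (ι t) → genus k (K t) ≤ 3 → (∀ h ∈ FanoSet, Good ι (fun _ => t) h) ∧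
      NoForms (fun t => genus k (K t)) (fun _ => t) FanoSet ∧
      TrivialCH0 ι (fun _ => t) FanoSet := by
  classical
  have h1 : ∀ (κ : Type) [Fintype κ] (q : κ → T) (Γ : Set (SP κ)), (∀ h ∈ Γ, Good ι q h) →
      NoForms (fun t => genus k (K t)) q Γ → TrivialCH0 ι q Γ := by
    intro κ _ q Γ hΓ hno a ha hdeg hinv
    exact quotSP ι q Γ hΓ hno a ha hdeg hinv
  refine ⟨h1, fun t ht hg => ?_⟩
  have h2 : ∀ h ∈ FanoSet, Good ι (fun _ => t) h := fun h _ c => ⟨rfl, fun _ => ht⟩
  have h3 : NoForms (fun t => genus k (K t)) (fun _ => t) FanoSet := fano_noForms _ t hg
  exact ⟨h2, h3, h1 (Fin 7) (fun _ => t) FanoSet h2 h3⟩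

end Pool.Agent.Results.MP_13bc1c_ag.SignedPermutationQuotients
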